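import Pool.Agent.Q162.SL.Base

/-!
# Project SL: ADD, the agents `d`
-/

set_option autoImplicit false

namespace Pool.Agent.Q162.SL

open Finset Q100.SL

/-- observed bits -/
def Phi4 {m : ℕ} (k : Fin m) : Fin 4 → Bool → Bool → Bool → Bool → (Fin m → Bool) → Bool
  | 0, _, _, o₁, _, _ => o₁
  | 1, _, _, _, o₂, _ => o₂
  | 2, _, _, _, _, u => u k
  | 3, b₀, b₁, _, _, u => rr b₀ b₁ (u k)

/-- the rule -/
def phi4 (y : Fin 4 → Bool) : Bool := if y 2 = y 3 then rr (y 0) (y 1) (y 2) else y 3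

/-- the weight in the state `true` -/
noncomputable def w4 (P R a : ℝ) (y0 y1 y2 y3 : Bool) : ℝ :=
  ∑ b₀, ∑ b₁, sg P true b₀ * sg P true b₁ * (sg R true y0 * sg R true y1 * sg a true y2) *
    if rr b₀ b₁ y2 = y3 then 1 else 0

lemma w4_eq (P R a : ℝ) (m : ℕ) (k : Fin m) (y : Fin 4 → Bool) :
    SS P R a m true (fun b₀ b₁ o₁ o₂ u => if ∀ j, Phi4 k j b₀ b₁ o₁ o₂ u = y j then 1 else 0) =
      w4 P R a (y 0) (y 1) (y 2) (y 3) := by
  unfold SS w4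
  refine Finset.sum_congr rfl fun b₀ _ => Finset.sum_congr rfl fun b₁ _ => ?_
  have e1 : ∀ o₁ o₂ : Bool, ∑ u : Fin m → Bool,
      sg P true b₀ * sg P true b₁ * (sg R true o₁ * sg R true o₂ * ∏ i, sg a true (u i)) *
        (if ∀ j, Phi4 k j b₀ b₁ o₁ o₂ u = y j then (1 : ℝ) else 0) =
      sg P true b₀ * sg P true b₁ * (sg R true o₁ * sg R true o₂) *
        ∑ b, sg a true b * (if o₁ = y 0 ∧ o₂ = y 1 ∧ b = y 2 ∧ rr b₀ b₁ b = y 3 then (1 : ℝ) else 0) := by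
    intro o₁ o₂
    rw [← marg a m true k, Finset.mul_sum]
    refine Finset.sum_congr rfl fun u _ => ?_
    have : (∀ j, Phi4 k j b₀ b₁ o₁ o₂ u = y j) ↔
        (o₁ = y 0 ∧ o₂ = y 1 ∧ u k = y 2 ∧ rr b₀ b₁ (u k) = y 3) := by
      constructor
      · intro h
        exact ⟨h 0, h 1, h 2, h 3⟩
      · rintro ⟨h0, h1, h2, h3⟩ j
        fin_cases j
        · exact h0
        · exact h1
        · exact h2
        · exact h3
    simp only [this]
    ring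
  simp only [e1]
  generalize y 0 = y0
  generalize y 1 = y1
  generalize y 2 = y2
  generalize y 3 = y3
  cases y0 <;> cases y1 <;> cases y2 <;> cases y3 <;> cases b₀ <;> cases b₁ <;> simp [rr] <;> try ring

lemma w4_ineq {p P R a : ℝ} {m : ℕ} (h : Par p P R a m) (y0 y1 y2 y3 : Bool)
    (hy : (if y2 = y3 then rr y0 y1 y2 else y3) = true) :
    p ^ 2 * w4 P R a (!y0) (!y1) (!y2) (!y3) ≤ (1 - p) ^ 2 * w4 P R a y0 y1 y2 y3 := by
  have hP := h.hP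
  have hP1 := h.hP1
  have hR := h.hR
  have hR1 := h.hR1
  have ha := h.ha
  have ha1 := h.ha1
  have c1 := h.c1
  have c2 := h.c2
  have c3 := h.c3
  have qP : 0 < 1 - P := by linarith
  have qR : 0 < 1 - R := by linarith
  have qa : 0 < 1 - a := by linarith
  have P0 : 0 < P := by linarith
  have R0 : 0 < R := by linarith
  have a0 : 0 < a := by linarith
  -- products
  have hRR : (1 - R) ^ 2 ≤ R ^ 2 := by nlinarith
  have hPP : (1 - P) ^ 2 ≤ P ^ 2 := by nlinarith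
  have k1 : p ^ 2 * ((1 - a) * (1 - P ^ 2)) ≤ (1 - p) ^ 2 * (a * (1 - (1 - P) ^ 2)) := by
    have e1 : 0 ≤ 1 - P ^ 2 := by nlinarith
    have e2 : p ^ 2 * (1 - a) * (1 - P ^ 2) ≤ (1 - p) ^ 2 * a * (1 - P ^ 2) := mul_le_mul_of_nonneg_right c1 e1
    have e3 : (1 - p) ^ 2 * a * (1 - P ^ 2) ≤ (1 - p) ^ 2 * a * (1 - (1 - P) ^ 2) :=
      mul_le_mul_of_nonneg_left (by linarith) (by positivity)
    linarith
  have k3 : p ^ 2 * ((1 - P) ^ 2 * a) ≤ (1 - p) ^ 2 * (P ^ 2 * (1 - a)) := by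
    have e1 : (1 - p) ^ 2 * (P ^ 2 * (1 - a)) * (1 - R) ^ 2 ≤ (1 - p) ^ 2 * (P ^ 2 * (1 - a)) * R ^ 2 :=
      mul_le_mul_of_nonneg_left hRR (by positivity)
    have e2 : p ^ 2 * ((1 - P) ^ 2 * a) * R ^ 2 ≤ (1 - p) ^ 2 * (P ^ 2 * (1 - a)) * R ^ 2 := by linarith
    exact le_of_mul_le_mul_right e2 (by positivity)
  have k1R := mul_le_mul_of_nonneg_right k1 (show 0 ≤ (1 - R) ^ 2 by positivity)
  have k1R' := mul_le_mul_of_nonneg_left hRR
    (show 0 ≤ (1 - p) ^ 2 * (a * (1 - (1 - P) ^ 2)) by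
      have : 0 ≤ 1 - (1 - P) ^ 2 := by nlinarith
      positivity)
  have k1M := mul_le_mul_of_nonneg_right k1 (show 0 ≤ (1 - R) * R by positivity)
  have k3M := mul_le_mul_of_nonneg_right k3 (show 0 ≤ (1 - R) * R by positivity)
  have k3R := mul_le_mul_of_nonneg_right k3 (show 0 ≤ (1 - R) ^ 2 by positivity)
  have k3R' := mul_le_mul_of_nonneg_left hRR
    (show 0 ≤ (1 - p) ^ 2 * (P ^ 2 * (1 - a)) by positivity)
  cases y0 <;> cases y1 <;> cases y2 <;> cases y3 <;> simp [rr] at hy <;> simp [w4, sg, rr] <;> linarith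

theorem admd : S_admd := by
  intro p P R a m hpar Ω _ W V₀ V₁ hV ι X i₀ i₁ i₂ i₃ k h0 h1 h2 h3
  set J : Fin 4 → ι := ![i₀, i₁, i₂, i₃] with hJ
  have hX : ∀ j ω, X (J j) ω = Phi4 k j (V₀ ω.1) (V₁ ω.1) ω.2.1 ω.2.2.1 ω.2.2.2 := by
    intro j ω
    fin_cases j
    · exact h0 ω
    · exact h1 ω
    · exact h2 ω
    · exact h3 ω
  have hΦ : ∀ j b₀ b₁ o₁ o₂ (u : Fin m → Bool),
      Phi4 k j (!b₀) (!b₁) (!o₁) (!o₂) (fun i => !(u i)) = !(Phi4 k j b₀ b₁ o₁ o₂ u) := by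
    intro j b₀ b₁ o₁ o₂ u
    fin_cases j
    · rfl
    · rfl
    · rfl
    · change rr (!b₀) (!b₁) (!(u k)) = !(rr b₀ b₁ (u k))
      cases b₀ <;> cases b₁ <;> cases u k <;> rfl
  have hw : ∀ y : Fin 4 → Bool, wt (Wx W R a m) X J true y = w4 P R a (y 0) (y 1) (y 2) (y 3) := by
    intro y
    rw [wt_eq hV X J (Phi4 k) hX]
    refine Eq.trans ?_ (w4_eq P R a m k y)
    congr 1
    funext b₀ b₁ o₁ o₂ u
    congr
  have hw' : ∀ y : Fin 4 → Bool, wt (Wx W R a m) X J false y = w4 P R a (!(y 0)) (!(y 1)) (!(y 2)) (!(y 3)) := by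
    intro y
    rw [wt_flip hV X J (Phi4 k) hX hΦ, hw]
  refine ⟨Fin 4, inferInstance, J, phi4, fun ω => ?_, fun b => ?_, fun y hy => ?_, fun y hy => ?_⟩
  · simp only [hX]
    change dd _ _ _ _ _ = if ω.2.2.2 k = rr (V₀ ω.1) (V₁ ω.1) (ω.2.2.2 k) then rr ω.2.1 ω.2.2.1 (ω.2.2.2 k)
      else rr (V₀ ω.1) (V₁ ω.1) (ω.2.2.2 k)
    rfl
  · cases b <;> rfl
  · rw [hw, hw']
    exact w4_ineq hpar _ _ _ _ hy
  · rw [hw, hw']
    have := w4_ineq hpar (!(y 0)) (!(y 1)) (!(y 2)) (!(y 3)) ?_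
    · simpa using this
    · unfold phi4 at hy
      revert hy
      generalize y 0 = y0
      generalize y 1 = y1
      generalize y 2 = y2
      generalize y 3 = y3
      cases y0 <;> cases y1 <;> cases y2 <;> cases y3 <;> decide

end Pool.Agent.Q162.SL
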