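import Pool.Agent.Q162.SL.Base

/-!
# Project SL: ADG, the agent `g`
-/

set_option autoImplicit false

namespace Pool.Agent.Q162.SL

open Finset Q100.SL

/-- law of `f b` where `b` is a bit of accuracy `a` (state `true`) -/
noncomputable def hh (a : ℝ) (f : Bool → Bool) (c : Bool) : ℝ := ∑ b, sg a true b * if f b = c then 1 else 0

/-- the products -/
noncomputable def Pr (a : ℝ) {m : ℕ} (f : Bool → Bool) (y : Fin m → Bool) : ℝ := ∏ i, hh a f (y i)

/-- the weight of a pattern in the state `true` -/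
noncomputable def wg (P R a : ℝ) {m : ℕ} (y : Fin m → Bool) : ℝ :=
  ∑ b₀, ∑ b₁, ∑ o₁, ∑ o₂, sg P true b₀ * sg P true b₁ * (sg R true o₁ * sg R true o₂) *
    Pr a (dd b₀ b₁ o₁ o₂) y

lemma wg_eq (P R a : ℝ) (m : ℕ) (y : Fin m → Bool) :
    SS P R a m true (fun b₀ b₁ o₁ o₂ u => if ∀ j, dd b₀ b₁ o₁ o₂ (u j) = y j then 1 else 0) = wg P R a y := by
  unfold SS wg
  refine Finset.sum_congr rfl fun b₀ _ => Finset.sum_congr rfl fun b₁ _ =>
    Finset.sum_congr rfl fun o₁ _ => Finset.sum_congr rfl fun o₂ _ => ?_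
  unfold Pr hh
  rw [← sum_prod_fun fun i b => sg a true b * if dd b₀ b₁ o₁ o₂ b = y i then (1 : ℝ) else 0, Finset.mul_sum]
  refine Finset.sum_congr rfl fun u _ => ?_
  rw [Finset.prod_mul_distrib, Finset.prod_ite_zero]
  simp only [Finset.mem_univ, forall_true_left, Finset.prod_const_one]
  ring

lemma dd_ct : (dd true true true true = fun _ => true) ∧ (dd true true true false = fun _ => true) ∧
    (dd true true false true = fun _ => true) ∧ (dd true true false false = fun u => !u) ∧
    (dd true false true true = fun _ => true) ∧ (dd true false true false = fun u => u) ∧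
    (dd true false false true = fun u => u) ∧ (dd true false false false = fun _ => false) ∧
    (dd false true true true = fun _ => true) ∧ (dd false true true false = fun u => u) ∧
    (dd false true false true = fun u => u) ∧ (dd false true false false = fun _ => false) ∧
    (dd false false true true = fun u => !u) ∧ (dd false false true false = fun _ => false) ∧
    (dd false false false true = fun _ => false) ∧ (dd false false false false = fun _ => false) := by
  refine ⟨?_, ?_, ?_, ?_, ?_, ?_, ?_, ?_, ?_, ?_, ?_, ?_, ?_, ?_, ?_, ?_⟩ <;>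
    (funext u; cases u <;> rfl)

lemma Pr_true (a : ℝ) {m : ℕ} (y : Fin m → Bool) :
    Pr a (fun _ => true) y = if ∀ i, y i = true then 1 else 0 := by
  unfold Pr
  have : ∀ c, hh a (fun _ => true) c = if c = true then 1 else 0 := by
    intro c
    cases c <;> simp [hh, sg]
  simp only [this]
  rw [Finset.prod_ite_zero]
  simp only [Finset.mem_univ, forall_true_left, Finset.prod_const_one]

lemma Pr_false (a : ℝ) {m : ℕ} (y : Fin m → Bool) :
    Pr a (fun _ => false) y = if ∀ i, y i = false then 1 else 0 := by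
  unfold Pr
  have : ∀ c, hh a (fun _ => false) c = if c = false then 1 else 0 := by
    intro c
    cases c <;> simp [hh, sg]
  simp only [this]
  rw [Finset.prod_ite_zero]
  simp only [Finset.mem_univ, forall_true_left, Finset.prod_const_one]

lemma hh_id (a : ℝ) (c : Bool) : hh a (fun u => u) c = if c = true then a else 1 - a := by
  cases c <;> simp [hh, sg]

lemma hh_not (a : ℝ) (c : Bool) : hh a (fun u => !u) c = if c = true then 1 - a else a := by
  cases c <;> simp [hh, sg]

lemma ones_not {m : ℕ} (y : Fin m → Bool) : ones (fun i => !(y i)) + ones y = m := by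
  unfold ones
  have h := Finset.card_filter_add_card_filter_not (s := (univ : Finset (Fin m))) (fun i => y i = true)
  rw [Finset.card_univ, Fintype.card_fin] at h
  have h2 : (univ.filter fun i => (!(y i)) = true) = univ.filter fun i => ¬ y i = true := by
    refine Finset.filter_congr fun i _ => ?_
    cases y i <;> simp
  rw [h2]
  omega

lemma ones_le {m : ℕ} (y : Fin m → Bool) : ones y ≤ m := by
  have := ones_not y
  omega

lemma prod_ones (s t : ℝ) {m : ℕ} (y : Fin m → Bool) :
    ∏ i, (if y i = true then s else t) = s ^ ones y * t ^ (m - ones y) := by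
  rw [Finset.prod_ite, Finset.prod_const, Finset.prod_const]
  congr 2
  have h := Finset.card_filter_add_card_filter_not (s := (univ : Finset (Fin m))) (fun i => y i = true)
  rw [Finset.card_univ, Fintype.card_fin] at h
  unfold ones
  omega

lemma Pr_id (a : ℝ) {m : ℕ} (y : Fin m → Bool) :
    Pr a (fun u => u) y = a ^ ones y * (1 - a) ^ (m - ones y) := by
  unfold Pr
  simp only [hh_id]
  exact prod_ones a (1 - a) y

lemma Pr_not (a : ℝ) {m : ℕ} (y : Fin m → Bool) :
    Pr a (fun u => !u) y = (1 - a) ^ ones y * a ^ (m - ones y) := by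
  unfold Pr
  simp only [hh_not]
  exact prod_ones (1 - a) a y

lemma wg_val (P R a : ℝ) {m : ℕ} (y : Fin m → Bool) :
    wg P R a y =
      (P ^ 2 * (1 - (1 - R) ^ 2) + 2 * P * (1 - P) * R ^ 2) * (if ∀ i, y i = true then 1 else 0) +
      ((1 - P) ^ 2 * (1 - R ^ 2) + 2 * P * (1 - P) * (1 - R) ^ 2) * (if ∀ i, y i = false then 1 else 0) +
      4 * P * (1 - P) * R * (1 - R) * (a ^ ones y * (1 - a) ^ (m - ones y)) +
      (P ^ 2 * (1 - R) ^ 2 + (1 - P) ^ 2 * R ^ 2) * ((1 - a) ^ ones y * a ^ (m - ones y)) := by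
  obtain ⟨d1, d2, d3, d4, d5, d6, d7, d8, d9, d10, d11, d12, d13, d14, d15, d16⟩ := dd_ct
  unfold wg
  simp only [Fintype.sum_bool, d1, d2, d3, d4, d5, d6, d7, d8, d9, d10, d11, d12, d13, d14, d15, d16,
    Pr_true, Pr_false, Pr_id, Pr_not]
  simp only [sg, if_true, Bool.false_eq_true, if_false]
  ring

lemma pow_comp {a : ℝ} (ha : 1 / 2 < a) (ha1 : a < 1) {j n : ℕ} (h : n < j) :
    (1 - a) ^ j * a ^ n * a ≤ a ^ j * (1 - a) ^ n * (1 - a) := by
  obtain ⟨d, rfl⟩ : ∃ d, j = n + (d + 1) := ⟨j - n - 1, by omega⟩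
  have h1 : (1 - a) ^ d ≤ a ^ d := pow_le_pow_left₀ (by linarith) (by linarith) d
  have h0 : 0 ≤ (1 - a) ^ n * a ^ n * ((1 - a) * a) := by
    have : 0 < 1 - a := by linarith
    positivity
  have h2 := mul_le_mul_of_nonneg_left h1 h0
  calc (1 - a) ^ (n + (d + 1)) * a ^ n * a = (1 - a) ^ n * a ^ n * ((1 - a) * a) * (1 - a) ^ d := by ring
    _ ≤ (1 - a) ^ n * a ^ n * ((1 - a) * a) * a ^ d := h2
    _ = a ^ (n + (d + 1)) * (1 - a) ^ n * (1 - a) := by ring

lemma wg_ineq {p P R a : ℝ} {m : ℕ} (h : Par p P R a m) (y : Fin m → Bool) (hy : m < 2 * ones y) :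
    p ^ 2 * wg P R a (fun i => !(y i)) ≤ (1 - p) ^ 2 * wg P R a y := by
  have hP := h.hP
  have hP1 := h.hP1
  have hR := h.hR
  have hR1 := h.hR1
  have ha := h.ha
  have ha1 := h.ha1
  have c4 := h.c4
  have c4' := h.c4'
  have c5 := h.c5
  have qa : 0 < 1 - a := by linarith
  have a0 : 0 < a := by linarith
  have hle := ones_le y
  have hm0 : 0 < m := h.odd.pos
  rw [wg_val, wg_val]
  have ho : ones (fun i => !(y i)) = m - ones y := by
    have := ones_not y
    omega
  have hmo : m - (m - ones y) = ones y := by omega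
  rw [ho, hmo]
  have n1 : ¬ ∀ i, y i = false := by
    intro hf
    have : ones y = 0 := by
      unfold ones
      rw [Finset.card_eq_zero, Finset.filter_eq_empty_iff]
      intro i _
      rw [hf i]
      decide
    omega
  have n2 : ¬ ∀ i, (!(y i)) = true := by
    intro hf
    exact n1 fun i => by have := hf i; revert this; cases y i <;> simp
  have n3 : (∀ i, (!(y i)) = false) ↔ ∀ i, y i = true := by
    refine forall_congr' fun i => ?_
    cases y i <;> simp
  simp only [if_neg n1, if_neg n2, n3, mul_zero, add_zero, zero_add]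
  set j := ones y with hj
  set X := a ^ j * (1 - a) ^ (m - j) with hX
  set Y := (1 - a) ^ j * a ^ (m - j) with hY
  have hXe : (1 - a) ^ (m - j) * a ^ j = X := mul_comm _ _
  have hYe : a ^ (m - j) * (1 - a) ^ j = Y := mul_comm _ _
  rw [hXe, hYe]
  have hX0 : 0 < X := by positivity
  have hY0 : 0 < Y := by positivity
  have hcomp : Y * a ≤ X * (1 - a) := pow_comp ha ha1 (by omega)
  set g := 4 * P * (1 - P) * R * (1 - R) with hg
  set D := P ^ 2 * (1 - R) ^ 2 + (1 - P) ^ 2 * R ^ 2 with hD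
  -- the product part
  have hprod : p ^ 2 * (g * Y + D * X) ≤ (1 - p) ^ 2 * (g * X + D * Y) := by
    have e1 : (p ^ 2 * g - (1 - p) ^ 2 * D) * (1 - a) ≤ ((1 - p) ^ 2 * g - p ^ 2 * D) * a := by nlinarith
    have e0 : 0 ≤ (1 - p) ^ 2 * g - p ^ 2 * D := by linarith
    suffices h : (p ^ 2 * g - (1 - p) ^ 2 * D) * Y ≤ ((1 - p) ^ 2 * g - p ^ 2 * D) * X by linarith
    rcases le_or_gt (p ^ 2 * g - (1 - p) ^ 2 * D) 0 with hneg | hpos
    · have h1 := mul_nonpos_of_nonpos_of_nonneg hneg hY0.le
      have h2 := mul_nonneg e0 hX0.le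
      linarith
    · have h1 := mul_le_mul_of_nonneg_left hcomp hpos.le
      have h2 := mul_le_mul_of_nonneg_right e1 hX0.le
      have h3 : ((p ^ 2 * g - (1 - p) ^ 2 * D) * Y) * a ≤ (((1 - p) ^ 2 * g - p ^ 2 * D) * X) * a := by linarith
      exact le_of_mul_le_mul_right h3 a0
  have hcst : p ^ 2 * (((1 - P) ^ 2 * (1 - R ^ 2) + 2 * P * (1 - P) * (1 - R) ^ 2) *
      (if ∀ i, y i = true then (1 : ℝ) else 0)) ≤
      (1 - p) ^ 2 * ((P ^ 2 * (1 - (1 - R) ^ 2) + 2 * P * (1 - P) * R ^ 2) *
      (if ∀ i, y i = true then (1 : ℝ) else 0)) := by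
    split_ifs
    · linarith
    · simp
  nlinarith

theorem admg : S_admg := by
  intro p P R a m hpar Ω _ W V₀ V₁ hV ι X i hi
  set Φ : Fin m → Bool → Bool → Bool → Bool → (Fin m → Bool) → Bool :=
    fun j b₀ b₁ o₁ o₂ u => dd b₀ b₁ o₁ o₂ (u j) with hΦd
  have hX : ∀ j ω, X (i j) ω = Φ j (V₀ ω.1) (V₁ ω.1) ω.2.1 ω.2.2.1 ω.2.2.2 := hi
  have hΦ : ∀ j b₀ b₁ o₁ o₂ (u : Fin m → Bool),
      Φ j (!b₀) (!b₁) (!o₁) (!o₂) (fun i => !(u i)) = !(Φ j b₀ b₁ o₁ o₂ u) := by
    intro j b₀ b₁ o₁ o₂ u
    change dd (!b₀) (!b₁) (!o₁) (!o₂) (!(u j)) = !(dd b₀ b₁ o₁ o₂ (u j))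
    cases b₀ <;> cases b₁ <;> cases o₁ <;> cases o₂ <;> cases u j <;> rfl
  have hw : ∀ y : Fin m → Bool, wt (Wx W R a m) X i true y = wg P R a y := by
    intro y
    rw [wt_eq hV X i Φ hX]
    refine Eq.trans ?_ (wg_eq P R a m y)
    congr 1
    funext b₀ b₁ o₁ o₂ u
    congr
  have hw' : ∀ y : Fin m → Bool, wt (Wx W R a m) X i false y = wg P R a fun k => !(y k) := by
    intro y
    rw [wt_flip hV X i Φ hX hΦ, hw]
  have hm0 : 0 < m := hpar.odd.pos
  refine ⟨Fin m, inferInstance, i, fun y => decide (m < 2 * ones y), fun ω => ?_, fun b => ?_,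
    fun y hy => ?_, fun y hy => ?_⟩
  · simp only [hX]
    rfl
  · cases b
    · have : ones (fun _ : Fin m => false) = 0 := by simp [ones]
      change decide (m < 2 * ones (fun _ : Fin m => false)) = false
      rw [this]
      simp
    · have : ones (fun _ : Fin m => true) = m := by simp [ones]
      change decide (m < 2 * ones (fun _ : Fin m => true)) = true
      rw [this, decide_eq_true_eq]
      omega
  · rw [hw, hw']
    exact wg_ineq hpar y (of_decide_eq_true hy)
  · rw [hw, hw']
    have h1 : ¬ m < 2 * ones y := of_decide_eq_false hy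
    have h2 := ones_not y
    have h3 := wg_ineq hpar (fun k => !(y k)) (by
      have := hpar.odd
      rcases this with ⟨t, ht⟩
      omega)
    simpa using h3

end Pool.Agent.Q162.SL
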