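import Pool.Agent.Q100.SL.Stm

/-!
# Project SL: the weights of the gadget
-/

set_option autoImplicit false

namespace Pool.Agent.Q162.SL

open Finset Q100.SL

/-- expectation of a function of the bits of a gadget copy and the two `v`-bits -/
noncomputable def SS (P R a : ℝ) (m : ℕ) (θ : Bool)
    (F : Bool → Bool → Bool → Bool → (Fin m → Bool) → ℝ) : ℝ :=
  ∑ b₀, ∑ b₁, ∑ o₁, ∑ o₂, ∑ u : Fin m → Bool,
    sg P θ b₀ * sg P θ b₁ * (sg R θ o₁ * sg R θ o₂ * ∏ i, sg a θ (u i)) * F b₀ b₁ o₁ o₂ u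

lemma SS_eq {P R a : ℝ} {m : ℕ} {Ω : Type} [Fintype Ω] {W : Bool → Ω → ℝ} {V₀ V₁ : Ω → Bool}
    (h : MargV P W V₀ V₁) (θ : Bool) (F : Bool → Bool → Bool → Bool → (Fin m → Bool) → ℝ) :
    ∑ ω : Ω × Oc m, Wx W R a m θ ω * F (V₀ ω.1) (V₁ ω.1) ω.2.1 ω.2.2.1 ω.2.2.2 = SS P R a m θ F := by
  rw [Fintype.sum_prod_type, Finset.sum_comm]
  have e1 : ∀ c : Oc m, ∑ ω : Ω, Wx W R a m θ (ω, c) * F (V₀ ω) (V₁ ω) c.1 c.2.1 c.2.2 =
      Wc R a m θ c * ∑ b₀, ∑ b₁, sg P θ b₀ * sg P θ b₁ * F b₀ b₁ c.1 c.2.1 c.2.2 := by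
    intro c
    rw [← h θ fun b₀ b₁ => F b₀ b₁ c.1 c.2.1 c.2.2, Finset.mul_sum]
    refine Finset.sum_congr rfl fun ω _ => ?_
    unfold Wx
    ring
  calc ∑ c : Oc m, ∑ ω : Ω, Wx W R a m θ (ω, c) * F (V₀ ω) (V₁ ω) c.1 c.2.1 c.2.2
      = ∑ c : Oc m, ∑ b₀, ∑ b₁, sg P θ b₀ * sg P θ b₁ * Wc R a m θ c * F b₀ b₁ c.1 c.2.1 c.2.2 := by
        refine Finset.sum_congr rfl fun c _ => ?_
        rw [e1 c, Finset.mul_sum]
        refine Finset.sum_congr rfl fun b₀ _ => ?_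
        rw [Finset.mul_sum]
        refine Finset.sum_congr rfl fun b₁ _ => ?_
        ring
    _ = ∑ b₀, ∑ b₁, ∑ c : Oc m, sg P θ b₀ * sg P θ b₁ * Wc R a m θ c * F b₀ b₁ c.1 c.2.1 c.2.2 := by
        rw [Finset.sum_comm]
        refine Finset.sum_congr rfl fun b₀ _ => ?_
        rw [Finset.sum_comm]
    _ = SS P R a m θ F := by
        unfold SS
        refine Finset.sum_congr rfl fun b₀ _ => Finset.sum_congr rfl fun b₁ _ => ?_
        rw [Fintype.sum_prod_type]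
        refine Finset.sum_congr rfl fun o₁ _ => ?_
        rw [Fintype.sum_prod_type]
        rfl

lemma sg_not (q : ℝ) (b : Bool) : sg q false (!b) = sg q true b := by
  cases b <;> simp [sg]

lemma SS_flip (P R a : ℝ) (m : ℕ) (F : Bool → Bool → Bool → Bool → (Fin m → Bool) → ℝ) :
    SS P R a m false F = SS P R a m true fun b₀ b₁ o₁ o₂ u => F (!b₀) (!b₁) (!o₁) (!o₂) fun i => !(u i) := by
  unfold SS
  rw [← Equiv.sum_comp Equiv.boolNot]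
  refine Finset.sum_congr rfl fun b₀ _ => ?_
  rw [← Equiv.sum_comp Equiv.boolNot]
  refine Finset.sum_congr rfl fun b₁ _ => ?_
  rw [← Equiv.sum_comp Equiv.boolNot]
  refine Finset.sum_congr rfl fun o₁ _ => ?_
  rw [← Equiv.sum_comp Equiv.boolNot]
  refine Finset.sum_congr rfl fun o₂ _ => ?_
  rw [← Equiv.sum_comp (Equiv.piCongrRight fun _ : Fin m => Equiv.boolNot)]
  refine Finset.sum_congr rfl fun u _ => ?_
  simp only [Equiv.boolNot_apply, sg_not, Equiv.piCongrRight_apply, Pi.map_apply]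
  rfl

/-- the weights -/
lemma wt_eq {P R a : ℝ} {m : ℕ} {Ω : Type} [Fintype Ω] {W : Bool → Ω → ℝ} {V₀ V₁ : Ω → Bool}
    (h : MargV P W V₀ V₁) {ι κ : Type} [Fintype κ] (X : ι → Ω × Oc m → Bool) (J : κ → ι)
    (Φ : κ → Bool → Bool → Bool → Bool → (Fin m → Bool) → Bool)
    (hX : ∀ k ω, X (J k) ω = Φ k (V₀ ω.1) (V₁ ω.1) ω.2.1 ω.2.2.1 ω.2.2.2) (θ : Bool) (y : κ → Bool) :
    wt (Wx W R a m) X J θ y =
      SS P R a m θ fun b₀ b₁ o₁ o₂ u => if ∀ k, Φ k b₀ b₁ o₁ o₂ u = y k then 1 else 0 := by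
  rw [← SS_eq h]
  unfold wt
  refine Finset.sum_congr rfl fun ω _ => ?_
  simp only [hX, mul_ite, mul_one, mul_zero]

/-- symmetry between the states -/
lemma wt_flip {P R a : ℝ} {m : ℕ} {Ω : Type} [Fintype Ω] {W : Bool → Ω → ℝ} {V₀ V₁ : Ω → Bool}
    (h : MargV P W V₀ V₁) {ι κ : Type} [Fintype κ] (X : ι → Ω × Oc m → Bool) (J : κ → ι)
    (Φ : κ → Bool → Bool → Bool → Bool → (Fin m → Bool) → Bool)
    (hX : ∀ k ω, X (J k) ω = Φ k (V₀ ω.1) (V₁ ω.1) ω.2.1 ω.2.2.1 ω.2.2.2)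
    (hΦ : ∀ k b₀ b₁ o₁ o₂ (u : Fin m → Bool), Φ k (!b₀) (!b₁) (!o₁) (!o₂) (fun i => !(u i)) = !(Φ k b₀ b₁ o₁ o₂ u))
    (y : κ → Bool) :
    wt (Wx W R a m) X J false y = wt (Wx W R a m) X J true fun k => !(y k) := by
  rw [wt_eq h X J Φ hX, wt_eq h X J Φ hX, SS_flip]
  congr 1
  funext b₀ b₁ o₁ o₂ u
  simp only [hΦ]
  congr 1
  refine propext (forall_congr' fun k => ?_)
  cases Φ k b₀ b₁ o₁ o₂ u <;> cases y k <;> simp

/-- product formula -/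
lemma sum_prod_fun {m : ℕ} (h : Fin m → Bool → ℝ) :
    ∑ u : Fin m → Bool, ∏ i, h i (u i) = ∏ i, ∑ b, h i b := by
  rw [Finset.prod_univ_sum, Fintype.piFinset_univ]

lemma sg_sum (q : ℝ) (θ : Bool) : ∑ b, sg q θ b = 1 := by
  cases θ <;> simp [sg]

lemma marg (a : ℝ) (m : ℕ) (θ : Bool) (k : Fin m) (G : Bool → ℝ) :
    ∑ u : Fin m → Bool, (∏ i, sg a θ (u i)) * G (u k) = ∑ b, sg a θ b * G b := by
  have e1 : ∀ u : Fin m → Bool, (∏ i, sg a θ (u i)) * G (u k) =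
      ∏ i, (sg a θ (u i) * if i = k then G (u i) else 1) := by
    intro u
    rw [Finset.prod_mul_distrib, Finset.prod_ite_eq' univ k fun i => G (u i)]
    simp
  simp_rw [e1]
  rw [sum_prod_fun fun i b => sg a θ b * if i = k then G b else 1]
  rw [Finset.prod_eq_single k]
  · simp
  · intro i _ hi
    simp only [if_neg hi, mul_one]
    exact sg_sum a θ
  · intro h
    exact absurd (Finset.mem_univ _) h

end Pool.Agent.Q162.SL
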